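import Pool.Agent.H200M.Stm2
import Pool.Agent.Q53.WR.Cor2

set_option autoImplicit false

/-! # Project MC (helper200), job MC-KCR (by helper224) -/

namespace Pool.Agent.Q224.MC

open Finset Pool.Agent.TH176.Nag Pool.Agent.TH603.Sur Pool.Agent.TH2.NU Pool.Agent.TH641.UM
open Pool.Agent.Y205.FW Pool.Agent.Y205.MD Pool.Agent.H200W Pool.Agent.H200P Pool.Agent.H200C
open Pool.Agent.Q53.WR Pool.Agent.H200G Pool.Agent.H200M

theorem q0_nonneg (K : Multiset ℕ) : 0 ≤ q0 K := by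
  unfold q0
  apply Multiset.sum_nonneg
  intro x hx
  obtain ⟨m, -, rfl⟩ := Multiset.mem_map.1 hx
  positivity

theorem q0_le_qG {G : ℝ} (hG : 0 ≤ G) (K : Multiset ℕ) : q0 K ≤ qG G K := by
  unfold q0 qG
  refine Multiset.sum_map_le_sum_map _ _ fun m _ => ?_
  have : (0 : ℝ) ≤ m := Nat.cast_nonneg m
  exact pow_le_pow_left₀ this (by linarith) 2

theorem q0_le_cond (K : Multiset ℕ) : q0 K ≤ 2 * (TH2.NU.condM K : ℝ) := by
  induction K using Multiset.induction_on with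
  | empty => simp [q0, TH2.NU.condM]
  | cons a K ih =>
    unfold q0 TH2.NU.condM at ih ⊢
    rw [Multiset.map_cons, Multiset.sum_cons, Multiset.map_cons, Multiset.sum_cons]
    push_cast
    have h1 : ((a : ℝ)) ^ 2 ≤ 2 * (((a + 1).choose 2 : ℕ) : ℝ) := by
      have h2 : 2 * (a + 1).choose 2 = (a + 1) * a := by
        have := Nat.triangle_succ a
        rw [Nat.choose_two_right, Nat.add_sub_cancel]
        exact Nat.mul_div_cancel' (by
          have := Nat.even_mul_succ_self a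
          rw [mul_comm] at this
          exact this.two_dvd)
      have h3 : (2 : ℝ) * (((a + 1).choose 2 : ℕ) : ℝ) = ((a : ℝ) + 1) * a := by exact_mod_cast h2
      rw [h3]
      have : (0 : ℝ) ≤ a := Nat.cast_nonneg a
      nlinarith
    push_cast at ih
    linarith

theorem sum_sq_cast (w' : ℕ → Multiset ℕ) (I : Finset ℕ) :
    ((((∑ l ∈ I, w' l).map fun v => v ^ 2).sum : ℕ) : ℝ) =
      ∑ l ∈ I, ((w' l).map fun v : ℕ => (v : ℝ) ^ 2).sum := by
  classical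
  induction I using Finset.induction_on with
  | empty => simp
  | insert a I ha ih =>
    rw [sum_insert ha, sum_insert ha, Multiset.map_add, Multiset.sum_add, Nat.cast_add, ih,
      Nat.cast_multiset_sum, Multiset.map_map]
    congr 2
    refine Multiset.map_congr rfl fun x _ => ?_
    simp

/-- **MC-KCR** -/
theorem kCR : S_KCR := by
  classical
  intro hC d m1 κ h G η K0 K J w hJw hW hη hη1 hG hm1 hK hhX hbig
  obtain ⟨X, hX⟩ : ∃ X, X = XX K0 d := ⟨_, rfl⟩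
  obtain ⟨S0, hS0⟩ : ∃ S, S = ∑ k ∈ J, ((w k).map fun v : ℕ => (v : ℝ) ^ 2).sum := ⟨_, rfl⟩
  obtain ⟨A, hA⟩ : ∃ A, A = qG G K := ⟨_, rfl⟩
  obtain ⟨Q, hQ⟩ : ∃ Q, Q = q0 K := ⟨_, rfl⟩
  rw [← hX] at hhX hbig
  rw [← hA, ← hQ] at hbig
  have hκ0 : (0 : ℝ) < 2 ^ κ := by positivity
  have hηG : 0 < η * G := by
    have : (0 : ℝ) < 2 ^ 50 * 2 ^ κ := by positivity
    linarith
  have hG0 : 0 < G := (mul_pos_iff_of_pos_left hη).1 hηG
  have hm0 : (0 : ℝ) ≤ m1 := Nat.cast_nonneg _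
  have hGh : G ≤ h := by
    have h1 : 1000 * (16 * G) ≤ η * h := by linarith
    have hh0 : 0 < h := by
      have : 0 < η * h := by linarith
      exact (mul_pos_iff_of_pos_left hη).1 this
    have h2 : η * h ≤ 1 * h := mul_le_mul_of_nonneg_right (by linarith) hh0.le
    linarith
  have hh0 : 0 < h := by linarith
  have hX0 : 0 < X := by
    have h1 : 0 < h ^ 2 := by positivity
    have h2 : 0 < η * X := by linarith
    exact (mul_pos_iff_of_pos_left hη).1 h2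
  have hQA : Q ≤ A := by rw [hQ, hA]; exact q0_le_qG hG0.le K
  have hQ0 : 0 ≤ Q := by rw [hQ]; exact q0_nonneg K
  have hQc : Q ≤ 2 * (TH2.NU.condM K : ℝ) := by rw [hQ]; exact q0_le_cond K
  have hηX : 0 < η * X := by positivity
  have hQX : Q ≤ X := by linarith
  have hAX : A ≤ 2 * X := by linarith
  have hS00 : 0 ≤ S0 := by
    rw [hS0]
    refine sum_nonneg fun k _ => Multiset.sum_nonneg ?_
    intro x hx
    obtain ⟨m, -, rfl⟩ := Multiset.mem_map.1 hx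
    positivity
  by_cases hcase : J.Nonempty ∧ A ≤ (1 - η) * (Q + 4 / 5 * S0) ∧ 2 * h ^ 2 ≤ Q + 4 / 5 * S0
  · obtain ⟨c1, c2, c3⟩ := hcase
    refine hC K0 K J w c1 hJw hW hη (by linarith) ?_ hm1 hK (by rw [← hA, ← hQ, ← hS0]; exact c2)
      (by rw [← hQ, ← hS0]; exact c3)
    have : (2 : ℝ) ^ 20 * 2 ^ κ ≤ 2 ^ 50 * 2 ^ κ := mul_le_mul_of_nonneg_right (by norm_num) hκ0.le
    linarith
  -- the amount needed
  obtain ⟨Y, hY⟩ : ∃ Y, Y = max (A / (1 - η) - Q) (2 * h ^ 2 - Q) := ⟨_, rfl⟩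
  have hη1' : 0 < 1 - η := by linarith
  have hAdiv : A / (1 - η) ≤ A + 2 * η * A := by
    rw [div_le_iff₀ hη1']
    have hA0 : 0 ≤ A := hQ0.trans hQA
    have h1 : 0 ≤ η * A := by positivity
    have h2 : 0 ≤ η * A * (1 - 2 * η) := mul_nonneg h1 (by linarith)
    nlinarith
  have hAdiv0 : A ≤ A / (1 - η) := by
    rw [le_div_iff₀ hη1']
    have hA0 : 0 ≤ A := hQ0.trans hQA
    have h1 : 0 ≤ η * A := by positivity
    nlinarith
  have hYX : Y ≤ A - Q + 4 * (η * X) := by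
    rw [hY]
    refine max_le ?_ ?_
    · have h1 : η * A ≤ η * (2 * X) := mul_le_mul_of_nonneg_left hAX hη.le
      nlinarith
    · linarith
  have hY1 : A / (1 - η) - Q ≤ Y := by rw [hY]; exact le_max_left _ _
  have hY2 : 2 * h ^ 2 - Q ≤ Y := by rw [hY]; exact le_max_right _ _
  have hS0Y : S0 ≤ 5 / 4 * Y := by
    by_contra hcon
    push Not at hcon
    apply hcase
    have hS0pos : 0 < S0 := by linarith
    refine ⟨?_, ?_, ?_⟩
    · by_contra hne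
      rw [not_nonempty_iff_eq_empty] at hne
      rw [hS0, hne, sum_empty] at hS0pos
      exact lt_irrefl _ hS0pos
    · have h1 : A / (1 - η) ≤ Q + 4 / 5 * S0 := by linarith
      rw [div_le_iff₀ hη1'] at h1
      linarith
    · linarith
  -- the new group
  obtain ⟨k0, hk0⟩ : ∃ k0, k0 = κ + 28 := ⟨_, rfl⟩
  obtain ⟨v0, hv0⟩ : ∃ v0, v0 = 2 ^ k0 - 1 := ⟨_, rfl⟩
  have h2k : 2 ≤ 2 ^ k0 := by
    rw [hk0]
    calc 2 = 2 ^ 1 := rfl
      _ ≤ 2 ^ (κ + 28) := Nat.pow_le_pow_right (by norm_num) (by omega)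
  have hv1 : 1 ≤ v0 := by omega
  have hv2 : v0 < 2 ^ k0 := by omega
  have hv3 : 2 ^ k0 ≤ 2 * v0 := by omega
  have hk0J : k0 ∉ J := by
    intro hc
    have := (hJw k0 hc).2
    omega
  have hvR : (0 : ℝ) < (v0 : ℝ) ^ 2 := by
    have : (0 : ℝ) < v0 := by exact_mod_cast hv1
    positivity
  obtain ⟨n, hn⟩ : ∃ n : ℕ, n = 2 ^ 29 + ⌈(5 / 4 * Y - S0) / (v0 : ℝ) ^ 2⌉₊ := ⟨_, rfl⟩
  have hn1 : 5 / 4 * Y - S0 ≤ n * (v0 : ℝ) ^ 2 := by
    have h1 := Nat.le_ceil ((5 / 4 * Y - S0) / (v0 : ℝ) ^ 2)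
    have h2 : ((⌈(5 / 4 * Y - S0) / (v0 : ℝ) ^ 2⌉₊ : ℕ) : ℝ) ≤ n := by
      have : ⌈(5 / 4 * Y - S0) / (v0 : ℝ) ^ 2⌉₊ ≤ n := by rw [hn]; exact Nat.le_add_left _ _
      exact_mod_cast this
    have h3 := h1.trans h2
    rw [div_le_iff₀ hvR] at h3
    exact h3
  have hn2 : n * (v0 : ℝ) ^ 2 ≤ 5 / 4 * Y - S0 + (2 ^ 29 + 1) * (v0 : ℝ) ^ 2 := by
    have h1 := Nat.ceil_lt_add_one (a := (5 / 4 * Y - S0) / (v0 : ℝ) ^ 2)
      (div_nonneg (by linarith) hvR.le)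
    have h2 : (n : ℝ) = 2 ^ 29 + ((⌈(5 / 4 * Y - S0) / (v0 : ℝ) ^ 2⌉₊ : ℕ) : ℝ) := by
      rw [hn]
      push_cast
      norm_num
    have h3 : (n : ℝ) * (v0 : ℝ) ^ 2 ≤ (2 ^ 29 + ((5 / 4 * Y - S0) / (v0 : ℝ) ^ 2 + 1)) * (v0 : ℝ) ^ 2 := by
      apply mul_le_mul_of_nonneg_right _ hvR.le
      rw [h2]
      linarith
    have h4 : (2 ^ 29 + ((5 / 4 * Y - S0) / (v0 : ℝ) ^ 2 + 1)) * (v0 : ℝ) ^ 2 =
        5 / 4 * Y - S0 + (2 ^ 29 + 1) * (v0 : ℝ) ^ 2 := by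
      have h5 : (5 / 4 * Y - S0) / (v0 : ℝ) ^ 2 * (v0 : ℝ) ^ 2 = 5 / 4 * Y - S0 :=
        div_mul_cancel₀ _ hvR.ne'
      linear_combination h5
    rw [h4] at h3
    exact h3
  have hn29 : 2 ^ 29 ≤ n := by rw [hn]; exact Nat.le_add_right _ _
  set w' : ℕ → Multiset ℕ := Function.update w k0 (Multiset.replicate n v0) with hw'
  have hwk : w' k0 = Multiset.replicate n v0 := Function.update_self _ _ _
  have hwne : ∀ l ∈ J, w' l = w l := fun l hl => Function.update_of_ne (by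
    rintro rfl
    exact hk0J hl) _ _
  have hsumM : ∑ l ∈ insert k0 J, w' l = ∑ l ∈ J, w l + Multiset.replicate n v0 := by
    rw [sum_insert hk0J, hwk, add_comm]
    congr 1
    exact sum_congr rfl hwne
  have hsumR : ∑ l ∈ insert k0 J, ((w' l).map fun v : ℕ => (v : ℝ) ^ 2).sum =
      S0 + n * (v0 : ℝ) ^ 2 := by
    rw [sum_insert hk0J, hwk, add_comm, hS0]
    congr 1
    · exact sum_congr rfl fun l hl => by rw [hwne l hl]
    · simp only [Multiset.map_replicate, Multiset.sum_replicate, nsmul_eq_mul]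
  have hG' : ∀ l ∈ insert k0 J, Grp l (w' l) ∧ l ≤ k0 := by
    intro l hl
    rw [mem_insert] at hl
    rcases hl with rfl | hl
    · refine ⟨?_, le_rfl⟩
      rw [hwk]
      refine ⟨?_, ?_, ?_⟩
      · intro h0
        have := congrArg Multiset.card h0
        rw [Multiset.card_replicate, Multiset.card_zero] at this
        omega
      · intro x hx
        rw [Multiset.mem_replicate] at hx
        rw [hx.2]
        exact ⟨hv1, hv2⟩
      · have h1 : (Multiset.replicate n v0).toFinset.card ≤ 1 := by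
          refine (Finset.card_le_card (t := {v0}) ?_).trans (by simp)
          intro a
          simp only [Multiset.mem_toFinset, Multiset.mem_replicate, Finset.mem_singleton]
          rintro ⟨-, rfl⟩
          rfl
        rw [Multiset.map_replicate, Multiset.sum_replicate, smul_eq_mul]
        calc 2 ^ 27 * 4 ^ l * (Multiset.replicate n v0).toFinset.card ≤ 2 ^ 27 * 4 ^ l * 1 :=
              Nat.mul_le_mul_left _ h1
          _ = 2 ^ 27 * (2 ^ l * 2 ^ l) := by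
              rw [mul_one, ← mul_pow]
              norm_num
          _ ≤ 2 ^ 27 * ((2 * v0) * (2 * v0)) := Nat.mul_le_mul_left _ (Nat.mul_le_mul hv3 hv3)
          _ = 2 ^ 29 * v0 ^ 2 := by ring
          _ ≤ n * v0 ^ 2 := Nat.mul_le_mul_right _ hn29
    · rw [hwne l hl]
      refine ⟨(hJw l hl).1, ?_⟩
      have := (hJw l hl).2
      omega
  have hS4 : 4 / 5 * (S0 + n * (v0 : ℝ) ^ 2) ≥ Y := by linarith
  have h1 := hC K0 K (insert k0 J) w' ⟨k0, mem_insert_self _ _⟩ hG' hW hη (by linarith) (by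
      rw [hk0, pow_add]
      have : (2 : ℝ) ^ 20 * (2 ^ κ * 2 ^ 28) ≤ 2 ^ 50 * 2 ^ κ := by
        have : (0 : ℝ) ≤ 2 ^ κ := hκ0.le
        nlinarith
      linarith) hm1 hK (by
      rw [hsumR, ← hA, ← hQ]
      have h2 : A / (1 - η) ≤ Q + 4 / 5 * (S0 + n * (v0 : ℝ) ^ 2) := by linarith
      rw [div_le_iff₀ hη1'] at h2
      linarith) (by
      rw [hsumR, ← hQ]
      linarith)
  have hv0b : 2 * ((2 ^ 29 + 1) * (v0 : ℝ) ^ 2) ≤ η * X := by
    have h2 : (v0 : ℝ) ≤ 2 ^ 28 * 2 ^ κ := by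
      have : v0 ≤ 2 ^ k0 := hv2.le
      have h3 : (v0 : ℝ) ≤ 2 ^ k0 := by exact_mod_cast this
      rw [hk0, pow_add] at h3
      linarith
    have h3 : (v0 : ℝ) ^ 2 ≤ (2 ^ 28 * 2 ^ κ) ^ 2 := pow_le_pow_left₀ (Nat.cast_nonneg _) h2 2
    have h4 : (2 ^ 50 * (2 : ℝ) ^ κ) ^ 2 ≤ (η * G) ^ 2 := pow_le_pow_left₀ (by positivity) hG 2
    have h5 : (η * G) ^ 2 ≤ h ^ 2 := by
      apply pow_le_pow_left₀ hηG.le
      have : η * G ≤ 1 * G := mul_le_mul_of_nonneg_right (by linarith) hG0.le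
      linarith
    have h6 : 2 * ((2 ^ 29 + 1) * (v0 : ℝ) ^ 2) ≤ (2 ^ 50 * (2 : ℝ) ^ κ) ^ 2 := by
      have h7 : (0 : ℝ) ≤ (2 ^ κ) ^ 2 := by positivity
      nlinarith
    linarith
  have hcardR := p_card (M1 := 0) (M2 := 0) (M3 := 0) (d := d) le_rfl le_rfl (by omega)
  have h2 : TH2.NU.condM (K0 + K + ∑ l ∈ insert k0 J, w' l) ≤ (HX 0 0 0 d).card := by
    rw [condM_add (K0 + K), condM_add K0]
    have h3 : (TH2.NU.condM (∑ l ∈ insert k0 J, w' l) : ℝ) ≤ S0 + n * (v0 : ℝ) ^ 2 := by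
      have h4 := condM_le (∑ l ∈ insert k0 J, w' l)
      have h7 : (TH2.NU.condM (∑ l ∈ insert k0 J, w' l) : ℝ) ≤
          ((((∑ l ∈ insert k0 J, w' l).map fun v => v ^ 2).sum : ℕ) : ℝ) := by exact_mod_cast h4
      rw [sum_sq_cast, hsumR] at h7
      exact h7
    have h5 : X = 2 * ((HX 0 0 0 d).card : ℝ) - 2 * (TH2.NU.condM K0 : ℝ) := by
      rw [hX]
      rfl
    have h6 : 2 * (TH2.NU.condM K : ℝ) + 2 * (S0 + n * (v0 : ℝ) ^ 2) ≤ X := by
      have h7 : S0 + n * (v0 : ℝ) ^ 2 ≤ 5 / 4 * Y + (2 ^ 29 + 1) * (v0 : ℝ) ^ 2 := by linarith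
      linarith
    have h8 : (TH2.NU.condM K0 : ℝ) + TH2.NU.condM K + TH2.NU.condM (∑ l ∈ insert k0 J, w' l) ≤
        (HX 0 0 0 d).card := by linarith
    exact_mod_cast h8
  obtain ⟨T, t1, t2, t3⟩ := crk_spec (HX 0 0 0 d) (vec (K0 + K + ∑ l ∈ insert k0 J, w' l))
  have h3 : TH2.NU.condM (K0 + K + ∑ l ∈ insert k0 J, w' l) ≤ T.card := by
    unfold crkM at h1
    omega
  obtain ⟨T0, s1, s2⟩ := Finset.exists_subset_card_eq h3
  have h4 : SurM (K0 + K + ∑ l ∈ insert k0 J, w' l) (↑(HX 0 0 0 d) : Set (ℤ × ℤ)) :=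
    ⟨T0, by exact_mod_cast s1.trans t1, by rw [s2]; exact (cond_vec _).symm,
      t3.mono (by exact_mod_cast s1)⟩
  have h5 : Sur (vec (K0 + K + ∑ l ∈ J, w l)) (↑(HX 0 0 0 d) : Set (ℤ × ℤ)) := by
    apply sur_drop (w := fun _ : Fin n => v0)
    refine (SurM_iff ?_ _).1 h4
    rw [ms_sum, ms_fin, Multiset.nsmul_singleton, hsumM, ← add_assoc]
    congr 1
    exact ms_toList (K0 + K + ∑ l ∈ J, w l)
  have h6 := crk_of_Sur h5
  rw [cond_vec] at h6
  unfold crkM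
  omega

end Pool.Agent.Q224.MC
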