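import Pool.Agent.H200M.Stm3
import Pool.Agent.Q53.WR.Cor2

set_option autoImplicit false

/-! # Project MC (helper200), job MC-MAIN3 (by helper224) -/

namespace Pool.Agent.Q224.MC

open Finset Pool.Agent.TH176.Nag Pool.Agent.TH603.Sur Pool.Agent.TH2.NU Pool.Agent.TH641.UM
open Pool.Agent.Y205.FW Pool.Agent.Y205.MD Pool.Agent.H200W Pool.Agent.H200P Pool.Agent.H200C
open Pool.Agent.Q53.WR Pool.Agent.H200G Pool.Agent.H200M Pool.Agent.H932R3 Pool.Agent.W609.CR

theorem two_choose' (a : ℕ) : (2 : ℝ) * (((a + 1).choose 2 : ℕ) : ℝ) = (a : ℝ) * (a + 1) := by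
  have h2 : 2 * (a + 1).choose 2 = a * (a + 1) := by
    rw [Nat.choose_two_right, Nat.add_sub_cancel, mul_comm (a + 1)]
    exact Nat.mul_div_cancel' (Nat.even_mul_succ_self a).two_dvd
  exact_mod_cast h2

theorem card_HX (d : ℕ) : 2 * ((HX 0 0 0 d).card : ℝ) = ((d : ℝ) + 1) * (d + 2) := by
  have hcardR := p_card (M1 := 0) (M2 := 0) (M3 := 0) (d := d) le_rfl le_rfl (by omega)
  have : 2 * (HX 0 0 0 d).card = (d + 1) * (d + 2) := by omega
  exact_mod_cast this

theorem condM_map {n : ℕ} (w : Fin n → ℕ) (A : Finset (Fin n)) :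
    2 * (TH2.NU.condM (A.val.map w) : ℝ) = ∑ i ∈ A, (w i : ℝ) * (w i + 1) := by
  have h1 : TH2.NU.condM (A.val.map w) = ∑ i ∈ A, (w i + 1).choose 2 := by
    unfold TH2.NU.condM
    rw [Multiset.map_map]
    rfl
  rw [h1]
  push_cast
  rw [mul_sum]
  exact sum_congr rfl fun i _ => two_choose' (w i)

theorem XX_XA {n : ℕ} (w : Fin n → ℕ) (A : Finset (Fin n)) (d : ℕ) :
    XX (A.val.map w) d = XA w A d := by
  unfold XX XA
  rw [card_HX, condM_map]

theorem few_mono {n : ℕ} {w : Fin n → ℕ} {S : Finset (Fin n)} {μ v v' θ : ℝ} (h : Few w S μ v)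
    (h0 : 0 < θ) (h1 : θ ≤ 1) (hv : v ≤ v') : Few w S (θ * μ) v' := by
  classical
  rcases lt_or_ge μ 0 with hμ | hμ
  · left
    intro i _ _ hle
    have h2 : θ * μ < 0 := mul_neg_of_pos_of_neg h0 hμ
    have h3 : (0 : ℝ) ≤ w i := Nat.cast_nonneg _
    linarith
  · have h2 : θ * μ ≤ μ := by nlinarith
    rcases h with h | ⟨h3, h4⟩
    · left
      intro i hi hi0 hle
      exact h i hi hi0 (hle.trans h2)
    · right
      refine ⟨mul_nonneg h0.le hμ, le_trans ?_ (h4.trans hv)⟩
      have h5 : ((S.filter fun i => (w i : ℝ) ≤ θ * μ).image w).card ≤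
          ((S.filter fun i => (w i : ℝ) ≤ μ).image w).card := by
        apply card_le_card
        apply image_subset_image
        intro i hi
        rw [mem_filter] at hi ⊢
        exact ⟨hi.1, hi.2.trans h2⟩
      have h6 : (((S.filter fun i => (w i : ℝ) ≤ θ * μ).image w).card : ℝ) ≤
          ((S.filter fun i => (w i : ℝ) ≤ μ).image w).card := by exact_mod_cast h5
      have h7 : (θ * μ) ^ 2 ≤ μ ^ 2 := pow_le_pow_left₀ (mul_nonneg h0.le hμ) h2 2
      exact mul_le_mul (by linarith) h7 (sq_nonneg _) (by positivity)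

theorem filter_map_ne {n : ℕ} (w : Fin n → ℕ) (S : Finset (Fin n)) :
    (S.val.map w).filter (fun v => v ≠ 0) = (S.filter fun i => w i ≠ 0).val.map w := by
  rw [Multiset.filter_map, Finset.filter_val]
  rfl

/-- **MC-MAIN3**, first part -/
theorem main3 : S_Main3 := by
  classical
  intro hC hW hCo hR ε hε
  obtain ⟨c', hc', hcore⟩ := hC ε hε
  obtain ⟨c, hcd⟩ : ∃ c : ℝ, c = min (c' / (8320 * 256)) (1 / (4160 * 256)) := ⟨_, rfl⟩
  have hc0 : 0 < c := by rw [hcd]; positivity
  have hc1 : c * (8320 * 256) ≤ c' := by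
    have : c ≤ c' / (8320 * 256) := by rw [hcd]; exact min_le_left _ _
    rwa [le_div_iff₀ (by norm_num)] at this
  have hc2 : c * (4160 * 256) ≤ 1 := by
    have : c ≤ 1 / (4160 * 256) := by rw [hcd]; exact min_le_right _ _
    rwa [le_div_iff₀ (by norm_num)] at this
  have hcc : c ≤ c' := by linarith
  refine ⟨c, hc0, ?_⟩
  intro n d μ w p hp h21 h10 hd hout hfew halt
  have hK : (univ.image p).val.map w = {w (p 0), w (p 1), w (p 2)} := by
    rw [Finset.image_val_of_injOn hp.injOn, Multiset.map_map]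
    rfl
  have hnot : ∀ i, i ∉ univ.image p → ∀ j, p j ≠ i := fun i hi j hj =>
    hi (mem_image.2 ⟨j, mem_univ _, hj⟩)
  rcases Classical.em (∀ i : Fin n, (∀ j : Fin 3, p j ≠ i) → w i = 0) with hz | hz
  · apply hR ((univ.image p).val.map w)
    · rw [filter_map_ne, filter_map_ne]
      congr 2
      ext i
      rw [mem_filter, mem_filter]
      constructor
      · rintro ⟨-, h⟩
        exact ⟨mem_univ _, h⟩
      · rintro ⟨-, h⟩
        refine ⟨?_, h⟩
        by_contra hcon
        exact h (hz i (hnot i hcon))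
    · rw [hK]
      have h1 := (hCo 0 h21 h10 hd).1 (Pool.Agent.H200P.surM_zero _)
      rw [add_zero] at h1
      have h6 := crk_of_Sur (w := vec {w (p 0), w (p 1), w (p 2)}) h1
      rw [cond_vec] at h6
      unfold crkM
      omega
  · push Not at hz
    obtain ⟨i0, hi0, hi1⟩ := hz
    have hw0 : w (p 0) ≤ d := by omega
    obtain ⟨D, hD⟩ : ∃ D : ℕ, D = d - w (p 0) := ⟨_, rfl⟩
    have hDR : (D : ℝ) = (d : ℝ) - w (p 0) := by rw [hD, Nat.cast_sub hw0]
    rw [← hDR] at hout
    have h1 : (1 : ℝ) ≤ w i0 := by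
      have : 1 ≤ w i0 := Nat.one_le_iff_ne_zero.2 hi1
      exact_mod_cast this
    have h2 : 1 ≤ c * D := h1.trans (hout i0 hi0)
    have hDbig : 4160 * 256 ≤ D := by
      have h3 : c * (4160 * 256) ≤ c * D := hc2.trans h2
      have h4 : (4160 * 256 : ℝ) ≤ D := le_of_mul_le_mul_left h3 hc0
      exact_mod_cast h4
    obtain ⟨T, hT⟩ : ∃ T : ℕ, T = D / (4160 * 256) := ⟨_, rfl⟩
    have hT1 : 1 ≤ T := by omega
    have hTD : T * (4160 * 256) ≤ D := by
      rw [hT]
      exact Nat.div_mul_le_self D (4160 * 256)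
    have hTD2 : D ≤ 2 * (4160 * 256) * T := by omega
    -- the volume
    have hXA : (D : ℝ) ^ 2 ≤ XA w (univ.image p) d := by
      unfold XA
      rw [sum_image (fun i _ j _ h => hp h), Fin.sum_univ_three]
      have g0 : (0 : ℝ) ≤ w (p 0) := Nat.cast_nonneg _
      have g1 : (0 : ℝ) ≤ w (p 1) := Nat.cast_nonneg _
      have g2 : (0 : ℝ) ≤ w (p 2) := Nat.cast_nonneg _
      have e1 : ((w (p 2) : ℕ) : ℝ) ≤ w (p 1) := by exact_mod_cast h21
      have e2 : ((w (p 1) : ℕ) : ℝ) ≤ w (p 0) := by exact_mod_cast h10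
      have e3 : ((w (p 0) : ℕ) : ℝ) + w (p 1) + w (p 2) ≤ d := by exact_mod_cast hd
      rw [hDR]
      have e4 : ((w (p 1) : ℕ) : ℝ) ^ 2 ≤ w (p 0) * w (p 1) := by nlinarith
      have e5 : ((w (p 2) : ℕ) : ℝ) ^ 2 ≤ w (p 0) * w (p 2) := by nlinarith
      have e6 : ((w (p 0) : ℕ) : ℝ) * (w (p 1) + w (p 2)) ≤ w (p 0) * (d - w (p 0)) :=
        mul_le_mul_of_nonneg_left (by linarith) g0
      nlinarith
    have hX0 : 0 ≤ XA w (univ.image p) d := (sq_nonneg _).trans hXA
    have hc'T : c * (D : ℝ) ≤ c' * T := by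
      have h3 : (D : ℝ) ≤ 2 * (4160 * 256) * T := by exact_mod_cast hTD2
      have h4 : c * (D : ℝ) ≤ c * (2 * (4160 * 256) * T) := mul_le_mul_of_nonneg_left h3 hc0.le
      have h5 : c * (8320 * 256) * (T : ℝ) ≤ c' * T :=
        mul_le_mul_of_nonneg_right hc1 (Nat.cast_nonneg _)
      linarith
    have e : c' * (c / c' * μ) = c * μ := by
      field_simp
    refine @hcore n d T (c / c' * μ) w (univ.image p) hT1 ?_ ?_ ?_ ?_ ?_
    · intro t ht1 htT
      rw [hK]
      refine hW ?_ h21 h10 hd ?_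
      · have : (1 : ℝ) ≤ t := by exact_mod_cast ht1
        linarith
      · rw [← hDR]
        have h3 : 4160 * (256 * t) ≤ D := by nlinarith
        exact_mod_cast h3
    · refine le_trans ?_ hXA
      apply pow_le_pow_left₀ (Nat.cast_nonneg _)
      have : T ≤ D := by omega
      exact_mod_cast this
    · intro i hi
      exact (hout i (hnot i hi)).trans hc'T
    · refine few_mono hfew (by positivity) ?_ (mul_le_mul_of_nonneg_right hcc hX0)
      rw [div_le_one hc']
      exact hcc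
    · rw [e]
      exact halt

/-- **MC-MAIN3**, second part -/
theorem mainCh : S_MainCh := by
  classical
  intro hC hWC ε hε
  obtain ⟨c, hc, hcore⟩ := hC ε hε
  refine ⟨c, hc, ?_⟩
  intro n d t m μ w p A E hpA ht hE0 hE1 hAm hd hch hout hfew halt
  obtain ⟨W, hW⟩ : ∃ W : Multiset ℕ, W = A.val.map w := ⟨_, rfl⟩
  have hK : (insert p A).val.map w = {w p} + W := by
    rw [Finset.insert_val_of_notMem hpA, Multiset.map_cons, hW, Multiset.singleton_add]
  have hwin : ∀ t' : ℕ, 1 ≤ t' → t' ≤ t → WinAb (256 * t') ((insert p A).val.map w) d := by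
    intro t' ht1 htt
    rw [hK]
    refine hWC (t := t') (m := m) (E := E) ht1 ⟨hE0, hE1, ?_, ?_, ?_⟩
    · intro x hx
      rw [hW, Multiset.mem_map] at hx
      obtain ⟨i, hi, rfl⟩ := hx
      exact hAm i hi
    · have h2 : 1 ≤ E 0 := hE1 0
      have h3 : 2 ^ 18 * t' + 2 ^ 8 * E 0 * (2 ^ 18 * t') ≤ 2 ^ 27 * t * E 0 := by
        have h4 : 2 ^ 18 * t' * 1 ≤ 2 ^ 18 * t' * E 0 := Nat.mul_le_mul_left _ h2
        have h5 : 2 ^ 8 * E 0 * (2 ^ 18 * t') = 2 ^ 26 * (t' * E 0) := by ring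
        have h6 : 2 ^ 18 * t' * E 0 = 2 ^ 18 * (t' * E 0) := by ring
        have h9 : t' * E 0 ≤ t * E 0 := Nat.mul_le_mul_right _ htt
        have h7 : 2 ^ 27 * t * E 0 = 2 ^ 27 * (t * E 0) := by ring
        rw [h5, h7]
        rw [h6, mul_one] at h4
        generalize t * E 0 = y at *
        generalize t' * E 0 = z at *
        omega
      omega
    · intro k hk1 hk2
      have h2 := hch k hk1 hk2
      have h3 : (up W k).sum = ∑ i ∈ A, (w i - k) := by
        have h6 : (up W k).sum = ∑ i ∈ A.filter (fun i => k < w i), (w i - k) := by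
          rw [hW, up, Multiset.filter_map, Multiset.map_map]
          rfl
        rw [h6]
        apply Finset.sum_filter_of_ne
        intro i _ hi
        omega
      have h4 : (W.filter fun x => k < x ∧ x ≤ k + 256 * (2 ^ 18 * t')).card ≤
          (A.filter fun i => k < w i ∧ w i ≤ k + 2 ^ 26 * t).card := by
        have e1 : (W.filter fun x => k < x ∧ x ≤ k + 256 * (2 ^ 18 * t')).card =
            (A.filter fun i => k < w i ∧ w i ≤ k + 256 * (2 ^ 18 * t')).card := by
          rw [hW, Multiset.filter_map, Multiset.card_map, Finset.card_def, Finset.filter_val]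
          exact congrArg Multiset.card (Multiset.filter_congr fun i _ => Iff.rfl)
        rw [e1]
        refine card_le_card fun i hi => ?_
        rw [mem_filter] at hi ⊢
        refine ⟨hi.1, hi.2.1, hi.2.2.trans ?_⟩
        omega
      rw [h3]
      refine le_trans ?_ h2
      refine Nat.add_le_add_left ?_ _
      refine Nat.mul_le_mul ?_ (Nat.add_le_add_left (Nat.mul_le_mul_left _ h4) _)
      refine Nat.mul_le_mul_right _ ?_
      omega
  refine @hcore n d t μ w (insert p A) ht hwin ?_ (fun i hi => hout i hi) hfew halt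
  obtain ⟨Λ, hΛ, hΛ2, -, -⟩ := hwin t ht le_rfl d le_rfl
  have h1 : 2 * ((HX 0 0 0 d).card : ℝ) - 2 * (TH2.NU.condM ((insert p A).val.map w) : ℝ) =
      XA w (insert p A) d := XX_XA w (insert p A) d
  rw [h1] at hΛ2
  have htR : (1 : ℝ) ≤ t := by exact_mod_cast ht
  have h2 : 2 * ((d : ℝ) + 2) ≤ XA w (insert p A) d / (64 * (256 * t)) := by linarith
  rw [le_div_iff₀ (by positivity)] at h2
  have h3 : t ≤ d := by
    have h4 : t * 1 ≤ t * E 0 := Nat.mul_le_mul_left _ (hE1 0)
    have h5 : 2 ^ 27 * t * E 0 = 2 ^ 27 * (t * E 0) := by ring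
    rw [h5] at hd
    generalize t * E 0 = y at *
    omega
  have h3R : (t : ℝ) ≤ d := by exact_mod_cast h3
  nlinarith

end Pool.Agent.Q224.MC
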